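import Mathlib
import Pool.Agent.H98.Interp

set_option autoImplicit false

namespace Pool.Agent.Results.MP_0c3956_an.NoSyndetic

open Pool.Agent.H98.InterpDefs

universe u

theorem result (S : Set ℕ) (hS : Syndetic S) : ¬ WeakInterpUE.{u} 2 S :=
  Pool.Agent.H98.Interp.not_interp_of_syndetic hS

end Pool.Agent.Results.MP_0c3956_an.NoSyndetic
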